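import Mathlib
import Pool.Agent.H487R2.PenroseDP

/-!
# Szegedy's divisibility question for the Penrose polynomial at `-1`: No.

A finite connected plane graph with edge set `E` is given, as usual, by its rotation system:
each edge `e` has two half-edges `(e, false)` and `(e, true)`, and `rot` sends a half-edge to the
next half-edge (counterclockwise) around its endpoint. Vertices are the cycles of `rot`, faces
are the cycles of `rot * flip`, and planarity is Euler's formula.
-/

set_option autoImplicit false

namespace Pool.Agent.Results.MP_daa8b9_co.PenroseMinusOne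

open Polynomial

/-- The map exchanging the two half-edges of every edge. -/
def flip {E : Type} : Equiv.Perm (E × Bool) :=
  Function.Involutive.toPerm (fun h => (h.1, !h.2)) (by intro h; simp)

/-- A finite connected plane graph with edge set `E` all of whose vertices have degree 3, given by
its rotation system (loops and multiple edges are allowed). -/
structure PlaneCubicGraph (E : Type) [Fintype E] where
  /-- the next half-edge around the endpoint of a half-edge -/
  rot : Equiv.Perm (E × Bool)
  /-- every vertex (cycle of `rot`) has exactly three half-edges -/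
  cubic : ∀ h, rot (rot (rot h)) = h ∧ rot h ≠ h
  /-- the graph is connected -/
  connected : ∀ h k : E × Bool, ∃ g ∈ Subgroup.closure {rot, flip}, g h = k
  /-- Euler's formula `|V| + |F| = |E| + 2`: the rotation system is an embedding in the sphere -/
  planar : Nat.card (Quotient (Equiv.Perm.SameCycle.setoid rot)) +
    Nat.card (Quotient (Equiv.Perm.SameCycle.setoid (rot * flip))) = Nat.card E + 2

namespace PlaneCubicGraph

variable {E : Type} [Fintype E] [DecidableEq E] (G : PlaneCubicGraph E)

/-- The number `F_G(4)` of 3-edge-colourings: maps `E → {1,2,3}` giving distinct colours to any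
two edges that share an endpoint. -/
noncomputable def numColourings : ℕ :=
  Nat.card {c : E → Fin 3 // ∀ h k : E × Bool, G.rot.SameCycle h k → h.1 ≠ k.1 → c h.1 ≠ c k.1}

/-- The edges of the medial graph are the corners of `G`; the medial edge named by the half-edge
`h` lies in the corner between `h` and `rot h` and joins the midpoints of the edges carrying `h`
and `rot h`. So the four medial half-edges at the midpoint of the edge with half-edges `h` and
`flip h` belong to the medial edges `h`, `rot⁻¹ h` (near the endpoint of `h`), `flip h` and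
`rot⁻¹ (flip h)` (near the endpoint of `flip h`), where `h` and `rot⁻¹ (flip h)` lie in one of the
two faces at the edge and `flip h` and `rot⁻¹ h` in the other one.

A state is a map `s : E → Bool`, where `false` means *white* and `true` means *crossing*.
`Joined s x y` says that the medial edges `x` and `y` are paired by the state `s` at the
midpoint of some edge: the white pairs are `{h, rot⁻¹ (flip h)}` and `{flip h, rot⁻¹ h}`, and the
crossing pairs are `{h, flip h}` and `{rot⁻¹ h, rot⁻¹ (flip h)}`. -/
def Joined (s : E → Bool) (x y : E × Bool) : Prop :=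
  ∃ h : E × Bool,
    if s h.1 then (x = h ∧ y = flip h) ∨ (x = G.rot.symm h ∧ y = G.rot.symm (flip h))
    else x = h ∧ y = G.rot.symm (flip h)

/-- The number of closed curves of the state `s`. -/
noncomputable def curves (s : E → Bool) : ℕ :=
  Nat.card (Quotient (Relation.EqvGen.setoid (G.Joined s)))

/-- The Penrose polynomial `P_G(λ) = ∑_s (-1)^{cr(s)} λ^{c(s)}`. -/
noncomputable def penrose : ℤ[X] :=
  ∑ s : E → Bool, (-1) ^ (Finset.univ.filter fun e => s e = true).card * X ^ G.curves s

end PlaneCubicGraph

/-! ## The counterexample -/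

def rotTable : List ℕ := [2, 20, 22, 7, 11, 1, 4, 8, 3, 13, 17, 6, 10, 15, 19, 9, 24, 12, 16, 26, 5,
  38, 0, 29, 18, 31, 14, 33, 27, 36, 21, 35, 34, 28, 40, 25, 23, 41, 30, 37, 32, 39]

def invTable : List ℕ := [22, 5, 0, 8, 6, 20, 11, 3, 7, 15, 12, 4, 17, 9, 26, 13, 18, 10, 24, 14, 1,
  30, 2, 36, 16, 35, 19, 28, 33, 23, 38, 25, 40, 27, 32, 31, 29, 39, 21, 41, 34, 37]

/-- index of a half-edge -/
def ix (h : Fin 21 × Bool) : ℕ := 2 * h.1.val + (if h.2 then 1 else 0)

/-- half-edge with a given index -/
def xi (k : ℕ) : Fin 21 × Bool := (⟨(k / 2) % 21, Nat.mod_lt _ (by norm_num)⟩, k % 2 == 1)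

def rot₀ : Equiv.Perm (Fin 21 × Bool) where
  toFun h := xi (rotTable.getD (ix h) 0)
  invFun h := xi (invTable.getD (ix h) 0)
  left_inv := by unfold Function.LeftInverse; decide +kernel
  right_inv := by unfold Function.RightInverse Function.LeftInverse; decide +kernel

/-- Number of cycles from a labelling. -/
theorem card_cycles {T : Type} {m : ℕ} (π : Equiv.Perm T) (lab : T → Fin m) (rep : Fin m → T)
    (n : T → ℕ) (h1 : ∀ x, lab (π x) = lab x) (h2 : ∀ x, (π^[n x]) (rep (lab x)) = x)
    (h3 : ∀ i, lab (rep i) = i) :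
    Nat.card (Quotient (Equiv.Perm.SameCycle.setoid π)) = m := by
  have hinv : ∀ x, lab (π⁻¹ x) = lab x := by
    intro x
    have h := h1 (π⁻¹ x)
    have h' : π (π⁻¹ x) = x := by simp
    rw [h'] at h
    exact h.symm
  have hz : ∀ (i : ℤ) x, lab ((π ^ i) x) = lab x := by
    intro i
    induction i using Int.induction_on with
    | zero => intro x; simp
    | succ i ih => intro x; rw [zpow_add_one, Equiv.Perm.mul_apply, ih, h1]
    | pred i ih => intro x; rw [zpow_sub_one, Equiv.Perm.mul_apply, ih, hinv]
  have hs : ∀ x y, π.SameCycle x y ↔ lab x = lab y := by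
    intro x y
    constructor
    · rintro ⟨i, rfl⟩; rw [hz]
    · intro h
      have hx : π.SameCycle (rep (lab x)) x :=
        ⟨(n x : ℤ), by rw [zpow_natCast, Equiv.Perm.coe_pow]; exact h2 x⟩
      have hy : π.SameCycle (rep (lab y)) y :=
        ⟨(n y : ℤ), by rw [zpow_natCast, Equiv.Perm.coe_pow]; exact h2 y⟩
      rw [h] at hx
      exact hx.symm.trans hy
  have e : Quotient (Equiv.Perm.SameCycle.setoid π) ≃ Fin m := by
    refine Equiv.ofBijective (Quotient.lift lab (fun x y h => (hs x y).1 h)) ⟨?_, ?_⟩
    · intro a b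
      induction a using Quotient.ind
      induction b using Quotient.ind
      intro h
      exact Quotient.sound ((hs _ _).2 h)
    · intro i
      exact ⟨Quotient.mk _ (rep i), h3 i⟩
  rw [Nat.card_congr e, Nat.card_eq_fintype_card, Fintype.card_fin]

def vLab : List ℕ := [0, 1, 0, 2, 3, 1, 3, 2, 2, 4, 5, 3, 5, 4, 6, 4, 7, 5, 7, 6, 1, 8, 0, 9, 7, 10, 6,
  11, 11, 9, 8, 10, 12, 11, 12, 10, 9, 13, 8, 13, 12, 13]
def vRep : List ℕ := [0, 1, 3, 4, 9, 10, 14, 16, 21, 23, 25, 27, 32, 37]
def vSt : List ℕ := [0, 0, 1, 0, 0, 2, 2, 1, 2, 0, 0, 1, 2, 1, 0, 2, 0, 1, 2, 1, 1, 0, 2, 0, 1, 0, 2,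
  0, 2, 1, 2, 1, 0, 1, 1, 2, 2, 0, 1, 2, 2, 1]
def fLab : List ℕ := [0, 1, 1, 2, 1, 3, 4, 1, 4, 2, 4, 3, 5, 4, 2, 5, 5, 3, 6, 5, 0, 3, 2, 0, 3, 6, 6,
  2, 7, 2, 8, 3, 7, 6, 6, 8, 7, 0, 0, 8, 8, 7]
def fRep : List ℕ := [0, 1, 3, 5, 6, 12, 18, 28, 30]
def fSt : List ℕ := [0, 0, 1, 0, 3, 0, 0, 2, 1, 5, 3, 1, 0, 2, 4, 1, 3, 2, 0, 2, 1, 5, 1, 4, 3, 4, 1,
  3, 0, 2, 0, 4, 3, 2, 3, 1, 1, 3, 2, 3, 2, 2]

theorem card_vertices : Nat.card (Quotient (Equiv.Perm.SameCycle.setoid rot₀)) = 14 := by
  refine card_cycles rot₀ (fun x => ⟨vLab.getD (ix x) 0 % 14, Nat.mod_lt _ (by norm_num)⟩)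
    (fun i => xi (vRep.getD i 0)) (fun x => vSt.getD (ix x) 0) ?_ ?_ ?_ <;> decide +kernel

theorem card_faces : Nat.card (Quotient (Equiv.Perm.SameCycle.setoid (rot₀ * flip))) = 9 := by
  refine card_cycles (rot₀ * flip) (fun x => ⟨fLab.getD (ix x) 0 % 9, Nat.mod_lt _ (by norm_num)⟩)
    (fun i => xi (fRep.getD i 0)) (fun x => fSt.getD (ix x) 0) ?_ ?_ ?_ <;> decide +kernel

def words : List (List Bool) := [[], [false], [true], [true, false], [false, true, true, false], [false, true, true], [true, false, true, false], [true, false, true], [true, false, true, true], [true, false, true, true, false], [false, true, true, false, true, false], [false, true, true, false, true], [true, false, true, true, false, true, false], [true, false, true, true, false, true], [true, true, false, true, false, true, false, true], [true, false, true, true, false, true, true], [false, true, true, false, true, false, true, false], [false, true, true, false, true, false, true], [true, true, false, true, false, true, false, true, true, false], [true, true, false, true,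 false, true, false, true, true], [false, true], [false, true, false], [true, true], [true, true, false], [false, true, true, false, true, false, true, false, true], [false, true, false, true, true, false, true, true], [true, true, false, true, false, true, false], [true, true, false, true, false, true], [true, true, false, true, false], [true, true, false, true], [false, true, false, true, true], [false, true, false, true, true, false], [true, true, false, true, false, true, true, false], [true, true, false, true, false, true, true], [false, true, false, true, true, false, true, false], [false, true, false, true, true, false, true], [true, true, false, true, true], [true, true, false, true, true, false], [false, true, false, true], [false, true, false, true, false], [true, true, false, true, true, false, true, false], [true, true, false, true, true, false, true]]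

theorem reach_word (w : List Bool) : ∀ x : Fin 21 × Bool,
    (∃ g ∈ Subgroup.closure {rot₀, flip}, g (0, false) = x) →
    ∃ g ∈ Subgroup.closure {rot₀, flip}, g (0, false) =
      w.foldl (fun x b => if b then rot₀ x else flip x) x := by
  induction w with
  | nil => intro x hx; exact hx
  | cons b w ih =>
    rintro x ⟨g, hg, rfl⟩
    apply ih
    cases b with
    | true => exact ⟨rot₀ * g, Subgroup.mul_mem _ (Subgroup.subset_closure (by simp)) hg, rfl⟩
    | false => exact ⟨flip * g, Subgroup.mul_mem _ (Subgroup.subset_closure (by simp)) hg, rfl⟩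

theorem words_spec : ∀ x : Fin 21 × Bool,
    (words.getD (ix x) []).foldl (fun x b => if b then rot₀ x else flip x) (0, false) = x := by
  decide +kernel

/-- The counterexample: a 3-connected plane cubic graph with 14 vertices, 21 edges, 9 faces. -/
def G₀ : PlaneCubicGraph (Fin 21) where
  rot := rot₀
  cubic := by decide +kernel
  connected := by
    have h : ∀ x : Fin 21 × Bool, ∃ g ∈ Subgroup.closure {rot₀, flip}, g (0, false) = x := by
      intro x
      have := reach_word (words.getD (ix x) []) (0, false) ⟨1, Subgroup.one_mem _, rfl⟩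
      rw [words_spec] at this
      exact this
    intro x y
    obtain ⟨g, hg, rfl⟩ := h x
    obtain ⟨g', hg', rfl⟩ := h y
    exact ⟨g' * g⁻¹, Subgroup.mul_mem _ hg' (Subgroup.inv_mem _ hg), by simp⟩
  planar := by rw [card_vertices, card_faces, Nat.card_eq_fintype_card, Fintype.card_fin]

/-! ### The number of 3-edge-colourings -/

/-- Backward adjacency: for each edge the earlier edges which share an endpoint with it. -/
def adj : List (List ℕ) := [[], [0], [0], [1, 2], [1, 3], [2, 3], [4, 5], [4, 6], [5, 6], [7, 8],
  [0, 2], [0, 1], [8, 9], [7, 9], [11, 13], [10, 12], [13, 14], [12, 15, 16], [11, 14],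
  [10, 15, 18], [16, 17, 18, 19]]

/-- `l` lists colours of the edges `l.length - 1, ..., 0`; may the next edge get colour `a`? -/
def check (a : ℕ) (l : List ℕ) : Bool :=
  (adj.getD l.length []).all fun j => !(l.getD (l.length - 1 - j) 0 == a)

def okL : List ℕ → Bool
  | [] => true
  | a :: l => check a l && okL l

def toL : (n : ℕ) → (Fin n → Fin 3) → List ℕ
  | 0, _ => []
  | n + 1, c => (c (Fin.last n)).val :: toL n (fun i => c i.castSucc)

def gen : ℕ → List (List ℕ)
  | 0 => [[]]
  | n + 1 => (gen n).flatMap fun l => ([0, 1, 2].filter fun a => check a l).map fun a => a :: l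

theorem sum_flatMap' (L : List (List ℕ)) (F : List ℕ → List (List ℕ)) (g : List ℕ → ℕ) :
    (L.map fun l => ((F l).map g).sum).sum = ((L.flatMap F).map g).sum := by
  induction L with
  | nil => rfl
  | cons x L ih => simp [List.flatMap_cons, ih]

theorem sum_toL : ∀ (n : ℕ) (g : List ℕ → ℕ),
    ∑ c : Fin n → Fin 3, (if okL (toL n c) then g (toL n c) else 0) = ((gen n).map g).sum := by
  intro n
  induction n with
  | zero => intro g; simp [toL, okL, gen]
  | succ n ih =>
    intro g
    rw [← (Fin.snocEquiv (fun _ : Fin (n + 1) => Fin 3)).sum_comp, Fintype.sum_prod_type]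
    have hs : ∀ (a : Fin 3) (c : Fin n → Fin 3),
        toL (n + 1) ((Fin.snocEquiv (fun _ : Fin (n + 1) => Fin 3)) (a, c)) = a.val :: toL n c := by
      intro a c
      simp [toL, Fin.snocEquiv]
    simp only [hs]
    rw [Finset.sum_comm]
    have : ∀ c : Fin n → Fin 3, ∑ a : Fin 3, (if okL (a.val :: toL n c) then g (a.val :: toL n c)
        else 0) = if okL (toL n c) then (fun l => ((([0, 1, 2].filter fun a => check a l).map
          fun a => a :: l).map g).sum) (toL n c) else 0 := by
      intro c
      rw [Fin.sum_univ_three]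
      simp only [okL, Bool.and_eq_true, Fin.val_zero, Fin.val_one, Fin.val_two]
      by_cases h : okL (toL n c) = true
      · simp only [h, and_true, if_true, List.filter_cons, List.filter_nil]
        by_cases h0 : check 0 (toL n c) = true <;> by_cases h1 : check 1 (toL n c) = true <;>
          by_cases h2 : check 2 (toL n c) = true <;> simp [h0, h1, h2, add_assoc]
      · simp [h]
    rw [Finset.sum_congr rfl fun c _ => this c]
    refine (ih (fun l => ((([0, 1, 2].filter fun a => check a l).map
          fun a => a :: l).map g).sum)).trans ?_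
    rw [gen, sum_flatMap']

theorem gen_length : (gen 21).length = 54 := by decide +kernel

theorem getD_toL : ∀ (n : ℕ) (c : Fin n → Fin 3) (j : ℕ) (hj : j < n),
    (toL n c).getD (n - 1 - j) 0 = (c ⟨j, hj⟩).val := by
  intro n
  induction n with
  | zero => intro c j hj; omega
  | succ n ih =>
    intro c j hj
    rcases Nat.lt_succ_iff_lt_or_eq.1 hj with h | h
    · have e : n + 1 - 1 - j = (n - 1 - j) + 1 := by omega
      rw [e, toL, List.getD_cons_succ, ih (fun i => c i.castSucc) j h]
      rfl
    · subst h
      simp [toL, Fin.last]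

theorem length_toL : ∀ (n : ℕ) (c : Fin n → Fin 3), (toL n c).length = n := by
  intro n
  induction n with
  | zero => intro c; rfl
  | succ n ih => intro c; simp [toL, ih]

theorem okL_toL : ∀ (n : ℕ) (c : Fin n → Fin 3),
    (∀ i < n, ∀ j ∈ adj.getD i [], j < i) →
    (okL (toL n c) = true ↔ ∀ (i : ℕ) (hi : i < n) (j : ℕ) (hj : j < n), j ∈ adj.getD i [] →
      c ⟨j, hj⟩ ≠ c ⟨i, hi⟩) := by
  intro n
  induction n with
  | zero => intro c _; simp [toL, okL]
  | succ n ih =>
    intro c hadj
    have ih' := ih (fun i => c i.castSucc) (fun i hi => hadj i (by omega))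
    rw [toL, okL, Bool.and_eq_true, ih', check, length_toL, List.all_eq_true]
    constructor
    · rintro ⟨h1, h2⟩ i hi j hj hji
      rcases Nat.lt_succ_iff_lt_or_eq.1 hi with h | h
      · have := hadj i hi j hji
        exact h2 i h j (by omega) hji
      · subst h
        have hj' := hadj i hi j hji
        have := h1 j hji
        rw [getD_toL i _ j hj'] at this
        intro he
        apply absurd this
        simp only [Fin.castSucc_mk, Bool.not_eq_true', beq_eq_false_iff_ne, ne_eq, not_not]
        rw [he]
        rfl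
    · intro h
      refine ⟨?_, ?_⟩
      · intro j hji
        have hj' := hadj n (by omega) j hji
        rw [getD_toL n _ j hj']
        have := h n (by omega) j (by omega) hji
        simp only [Fin.castSucc_mk, Bool.not_eq_true', beq_eq_false_iff_ne, ne_eq]
        intro he
        exact this (Fin.ext he)
      · intro i hi j hj hji
        exact h i (by omega) j (by omega) hji

theorem numColourings_eq : G₀.numColourings = 54 := by
  have hcyc : ∀ h k : Fin 21 × Bool, rot₀.SameCycle h k ↔ (k = h ∨ k = rot₀ h ∨ k = rot₀ (rot₀ h)) := by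
    intro h k
    have h3 : rot₀ ^ 3 = 1 := by
      ext x : 1
      exact (G₀.cubic x).1
    constructor
    · rintro ⟨i, rfl⟩
      have hi : rot₀ ^ i = rot₀ ^ (i % 3) := by
        conv_lhs => rw [← Int.emod_add_mul_ediv i 3, zpow_add, zpow_mul]
        have : rot₀ ^ (3 : ℤ) = 1 := by exact_mod_cast h3
        rw [this, one_zpow, mul_one]
      rw [hi]
      have h0 : 0 ≤ i % 3 := Int.emod_nonneg _ (by norm_num)
      have h1 : i % 3 < 3 := Int.emod_lt_of_pos _ (by norm_num)
      have : i % 3 = 0 ∨ i % 3 = 1 ∨ i % 3 = 2 := by omega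
      rcases this with h | h | h
      · left; rw [h]; simp
      · right; left; rw [h]; simp
      · right; right; rw [h]
        have : (rot₀ ^ (2 : ℤ)) = rot₀ * rot₀ := by rw [zpow_ofNat, sq]
        rw [this]; rfl
    · rintro (rfl | rfl | rfl)
      · exact Equiv.Perm.SameCycle.refl _ _
      · exact ⟨1, by simp⟩
      · exact ⟨2, by rw [zpow_ofNat, sq]; rfl⟩
  have hadj : ∀ i < 21, ∀ j ∈ adj.getD i [], j < i := by decide +kernel
  have hA : ∀ i j : Fin 21, j.val ∈ adj.getD i.val [] → ∃ h : Fin 21 × Bool,
      (h.1 = i ∧ (rot₀ h).1 = j) ∨ (h.1 = j ∧ (rot₀ h).1 = i) := by decide +kernel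
  have hB : ∀ h : Fin 21 × Bool, (rot₀ h).1.val ∈ adj.getD h.1.val [] ∨
      h.1.val ∈ adj.getD (rot₀ h).1.val [] := by decide +kernel
  have key : ∀ c : Fin 21 → Fin 3,
      (∀ h k : Fin 21 × Bool, G₀.rot.SameCycle h k → h.1 ≠ k.1 → c h.1 ≠ c k.1) ↔
        okL (toL 21 c) = true := by
    intro c
    rw [okL_toL 21 c hadj]
    constructor
    · intro H i hi j hj hji
      have hne : j ≠ i := (hadj i hi j hji).ne
      obtain ⟨h, ⟨h1, h2⟩ | ⟨h1, h2⟩⟩ := hA ⟨i, hi⟩ ⟨j, hj⟩ hji
      · have := H h (rot₀ h) ((hcyc _ _).2 (Or.inr (Or.inl rfl)))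
          (by rw [h1, h2]; intro h; exact hne (Fin.mk.inj_iff.1 h).symm)
        rw [h1, h2] at this
        exact this.symm
      · have := H h (rot₀ h) ((hcyc _ _).2 (Or.inr (Or.inl rfl)))
          (by rw [h1, h2]; intro h; exact hne (Fin.mk.inj_iff.1 h))
        rw [h1, h2] at this
        exact this
    · intro H
      have H' : ∀ h : Fin 21 × Bool, c h.1 ≠ c (rot₀ h).1 := by
        intro h
        rcases hB h with hh | hh
        · exact (H h.1.val h.1.isLt (rot₀ h).1.val (rot₀ h).1.isLt hh).symm
        · exact (H (rot₀ h).1.val (rot₀ h).1.isLt h.1.val h.1.isLt hh)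
      intro h k hk hne
      rcases (hcyc h k).1 hk with rfl | rfl | rfl
      · exact absurd rfl hne
      · exact H' h
      · have h3 := (G₀.cubic h).1
        have := H' (rot₀ (rot₀ h))
        have e : rot₀ (rot₀ (rot₀ h)) = h := h3
        rw [e] at this
        exact this.symm
  unfold PlaneCubicGraph.numColourings
  rw [Nat.card_congr (Equiv.subtypeEquivRight key), Nat.card_eq_fintype_card, Fintype.card_subtype,
    Finset.card_filter, sum_toL 21 (fun _ => 1)]
  rw [← gen_length]
  simp

/-! ### The value of the Penrose polynomial at `-1` -/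

open Pool.Agent.H487R2.PenroseDP

def prog : List Instr :=
  [(([(0,5),(1,22)],[(0,1),(22,5)]),[]),
  (([(2,8),(3,0)],[(2,3),(0,8)]),[0]),
  (([(4,20),(5,6)],[(4,5),(6,20)]),[5]),
  (([(6,3),(7,11)],[(6,7),(11,3)]),[3,6]),
  (([(8,15),(9,7)],[(8,9),(7,15)]),[7,8]),
  (([(10,4),(11,12)],[(10,11),(12,4)]),[4,11]),
  (([(12,9),(13,17)],[(12,13),(17,9)]),[9,12]),
  (([(14,13),(15,26)],[(14,15),(26,13)]),[13,15]),
  (([(16,10),(17,18)],[(16,17),(18,10)]),[10,17]),
  (([(18,14),(19,24)],[(18,19),(24,14)]),[14,18]),
  (([(20,30),(21,1)],[(20,21),(1,30)]),[1,20]),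
  (([(22,36),(23,2)],[(22,23),(2,36)]),[2,22]),
  (([(24,35),(25,16)],[(24,25),(16,35)]),[16,24]),
  (([(26,28),(27,19)],[(26,27),(19,28)]),[19,26]),
  (([(28,23),(29,33)],[(28,29),(33,23)]),[23,28]),
  (([(30,25),(31,38)],[(30,31),(38,25)]),[25,30]),
  (([(32,27),(33,40)],[(32,33),(40,27)]),[27,33]),
  (([(34,31),(35,32)],[(34,35),(32,31)]),[31,32,35]),
  (([(36,39),(37,29)],[(36,37),(29,39)]),[29,36]),
  (([(38,41),(39,21)],[(38,39),(21,41)]),[21,38,39]),
  (([(40,37),(41,34)],[(40,41),(34,37)]),[34,37,40,41])]

def startL : List ℕ := List.range 42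

theorem prog_ok : ok 42 prog = true := by decide +kernel

theorem prog_run : ((run 42 prog [(0, 1, startL)]).map fun x => x.2.1).sum = -78966 := by
  decide +kernel

/-- The gates of the edges of the counterexample. -/
def Γ₀ (e : Fin 21) : Gate (Fin 21 × Bool) :=
  ([((e, false), rot₀.symm (e, true)), ((e, true), rot₀.symm (e, false))],
   [((e, false), (e, true)), (rot₀.symm (e, false), rot₀.symm (e, true))])

theorem ix_inj : Function.Injective ix := by
  unfold Function.Injective
  decide +kernel

theorem mem_sel {n : ℕ} {T : Type} (Γ : Fin n → Gate T) (s : Fin n → Bool) (p : T × T) :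
    p ∈ sel Γ s ↔ ∃ e, p ∈ (if s e then (Γ e).2 else (Γ e).1) := by
  unfold sel
  rw [List.mem_flatten]
  constructor
  · rintro ⟨l, hl, hp⟩
    rw [List.mem_ofFn] at hl
    obtain ⟨e, rfl⟩ := hl
    exact ⟨e, hp⟩
  · rintro ⟨e, he⟩
    exact ⟨_, (List.mem_ofFn).2 ⟨e, rfl⟩, he⟩

theorem joined_iff (s : Fin 21 → Bool) (t u : Fin 21 × Bool) :
    Relation.EqvGen (G₀.Joined s) t u ↔
      mergeAll ix (sel Γ₀ s) t = mergeAll ix (sel Γ₀ s) u := by
  rw [mergeAll_eq_iff]
  constructor
  · refine eqvGen_mono' ?_
    rintro a b ⟨⟨e, c⟩, h⟩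
    have hmem : ∀ p, p ∈ (if s e then (Γ₀ e).2 else (Γ₀ e).1) →
        Relation.EqvGen (fun x y => ix x = ix y ∨ (x, y) ∈ sel Γ₀ s) p.1 p.2 := by
      intro p hp
      exact Relation.EqvGen.rel _ _ (Or.inr ((mem_sel Γ₀ s p).2 ⟨e, hp⟩))
    cases hs : s e with
    | true =>
      simp only [hs, if_true] at h hmem
      cases c with
      | false =>
        rcases h with ⟨rfl, rfl⟩ | ⟨rfl, rfl⟩
        · exact hmem ((e, false), (e, true)) (by simp [Γ₀])
        · exact hmem (rot₀.symm (e, false), rot₀.symm (e, true)) (by simp [Γ₀])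
      | true =>
        rcases h with ⟨rfl, rfl⟩ | ⟨rfl, rfl⟩
        · exact (hmem ((e, false), (e, true)) (by simp [Γ₀])).symm
        · exact (hmem (rot₀.symm (e, false), rot₀.symm (e, true)) (by simp [Γ₀])).symm
    | false =>
      simp only [hs, Bool.false_eq_true, if_false] at h hmem
      cases c with
      | false =>
        obtain ⟨rfl, rfl⟩ := h
        exact hmem ((e, false), rot₀.symm (e, true)) (by simp [Γ₀])
      | true =>
        obtain ⟨rfl, rfl⟩ := h
        exact hmem ((e, true), rot₀.symm (e, false)) (by simp [Γ₀])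
  · refine eqvGen_mono' ?_
    rintro a b (h | h)
    · rw [ix_inj h]; exact Relation.EqvGen.refl _
    · rw [mem_sel] at h
      obtain ⟨e, he⟩ := h
      refine Relation.EqvGen.rel _ _ ?_
      cases hs : s e with
      | true =>
        simp only [hs, if_true, Γ₀, List.mem_cons, List.not_mem_nil, or_false, Prod.mk.injEq] at he
        rcases he with ⟨rfl, rfl⟩ | ⟨rfl, rfl⟩
        · exact ⟨(e, false), by rw [if_pos hs]; exact Or.inl ⟨rfl, rfl⟩⟩
        · exact ⟨(e, false), by rw [if_pos hs]; exact Or.inr ⟨rfl, rfl⟩⟩
      | false =>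
        simp only [hs, Bool.false_eq_true, if_false, Γ₀, List.mem_cons, List.not_mem_nil,
          or_false, Prod.mk.injEq] at he
        rcases he with ⟨rfl, rfl⟩ | ⟨rfl, rfl⟩
        · exact ⟨(e, false), by rw [if_neg (by rw [hs]; simp)]; exact ⟨rfl, rfl⟩⟩
        · exact ⟨(e, true), by rw [if_neg (by rw [hs]; simp)]; exact ⟨rfl, rfl⟩⟩

theorem card_range {T : Type} [Fintype T] (f : T → ℕ) :
    Nat.card (Set.range f) = (Finset.univ.image f).card := by
  have h : Set.range f = ((Finset.univ.image f : Finset ℕ) : Set ℕ) := by simp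
  rw [h]
  exact Nat.card_eq_fintype_card.trans (Fintype.card_coe _)

theorem curves_eq (s : Fin 21 → Bool) :
    G₀.curves s = (Finset.univ.image (mergeAll ix (sel Γ₀ s))).card := by
  unfold PlaneCubicGraph.curves
  set f := mergeAll ix (sel Γ₀ s) with hf
  have e : Quotient (Relation.EqvGen.setoid (G₀.Joined s)) ≃ Set.range f := by
    refine Equiv.ofBijective (Quotient.lift (fun t => (⟨f t, t, rfl⟩ : Set.range f))
      (fun t u h => Subtype.ext ((joined_iff s t u).1 h))) ⟨?_, ?_⟩
    · intro a b
      induction a using Quotient.ind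
      induction b using Quotient.ind
      intro h
      exact Quotient.sound ((joined_iff s _ _).2 (Subtype.ext_iff.1 h))
    · rintro ⟨_, t, rfl⟩
      exact ⟨Quotient.mk _ t, rfl⟩
  rw [Nat.card_congr e, card_range f]

theorem card_image_ix : (Finset.univ.image ix).card = 42 := by
  rw [Finset.card_image_of_injective _ ix_inj, Finset.card_univ, Fintype.card_prod, Fintype.card_fin,
    Fintype.card_bool]

theorem gates_eq : (List.ofFn Γ₀).map (fun γ => (γ.1.map fun p => (ix p.1, ix p.2),
      γ.2.map fun p => (ix p.1, ix p.2))) = prog.map Prod.fst := by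
  decide +kernel

theorem dec_startL : ∀ t < 42, dec startL t = t := by decide +kernel

theorem prog_in : ∀ γ ∈ prog.map Prod.fst, (∀ p ∈ γ.1, p.1 < 42 ∧ p.2 < 42) ∧
    (∀ p ∈ γ.2, p.1 < 42 ∧ p.2 < 42) := by decide +kernel

theorem val_eq : val ix (List.ofFn Γ₀) = -78966 := by
  have h1 : val ix (List.ofFn Γ₀) = val (fun t => t) (prog.map Prod.fst) := by
    rw [← gates_eq, ← val_comp ix (List.ofFn Γ₀) (fun t => t)]
    rfl
  have h2 : val (fun t : ℕ => t) (prog.map Prod.fst) = val (dec startL) (prog.map Prod.fst) := by
    refine val_congr (A := fun t => t < 42) _ ?_ (fun γ hγ => prog_in γ hγ)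
    intro t u ht hu
    rw [dec_startL t ht, dec_startL u hu]
  rw [h1, h2, run_final 42 prog startL prog_ok (by unfold startL; rw [List.length_range]), prog_run]

theorem penrose_eval : G₀.penrose.eval (-1) = -78966 := by
  unfold PlaneCubicGraph.penrose
  rw [eval_finsetSum, ← val_eq, ← sum_sel 21 Γ₀ ix]
  refine Finset.sum_congr rfl fun s _ => ?_
  rw [eval_mul, eval_pow, eval_neg, eval_one, eval_pow, eval_X, curves_eq, card_image_mergeAll,
    card_image_ix, Finset.prod_ite, Finset.prod_const, Finset.prod_const_one]
  norm_num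

/-- **Szegedy's question has a negative answer.** There is a connected plane cubic graph `G` (with
21 edges) which has exactly 54 3-edge-colourings and `P_G(-1) = -78966`, so that `F_G(4)` does not
divide `P_G(-1)`. -/
theorem result : ∃ G : PlaneCubicGraph (Fin 21), G.numColourings = 54 ∧
    G.penrose.eval (-1) = -78966 ∧ ¬ ((G.numColourings : ℤ) ∣ G.penrose.eval (-1)) := by
  refine ⟨G₀, numColourings_eq, penrose_eval, ?_⟩
  rw [numColourings_eq, penrose_eval]
  norm_num

end Pool.Agent.Results.MP_daa8b9_co.PenroseMinusOne
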